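import Pool.Agent.H867R2.HH3

/-!
The best constant in the `n`-dimensional Hermite-Hadamard inequality for nonnegative convex
functions on convex domains is at least `n`, for every `n ≥ 2`.
-/

open MeasureTheory Set Filter Topology
open scoped ENNReal NNReal

namespace Pool.Agent.Results.MP_a32717_an.ConvexConstantAtLeastN

/-- A convex domain: a bounded open convex set (nonempty). -/
def IsConvexDomain {n : ℕ} (Ω : Set (EuclideanSpace ℝ (Fin n))) : Prop :=
  IsOpen Ω ∧ Convex ℝ Ω ∧ Bornology.IsBounded Ω ∧ Ω.Nonempty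

/-- The inequality `(1/|Ω|) ∫_Ω f dx ≤ (c/|∂Ω|) ∫_{∂Ω} f dσ`, where `σ` is the `(n-1)`-dimensional
(Euclidean, i.e. normalised) Hausdorff measure. -/
def Holds {n : ℕ} (c : ℝ) (Ω : Set (EuclideanSpace ℝ (Fin n)))
    (f : EuclideanSpace ℝ (Fin n) → ℝ) : Prop :=
  1 / (volume Ω).toReal * ∫ x in Ω, f x ≤
    c / (μHE[n - 1] (frontier Ω)).toReal * ∫ x in frontier Ω, f x ∂μHE[n - 1]

open Pool.Agent.H867R2.HH in
/-- the statement in `E m × ℝ` -/
theorem aux (m : ℕ) (c : ℝ) (hc : c < m + 1) : ∃ ε δ : ℝ, 0 < ε ∧ 0 < δ ∧ δ < 1 ∧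
    c / ((μHE[m] : Measure (H m)) (frontier (Om m ε))).toReal *
        ∫ z in frontier (Om m ε), ff δ z.fst ∂μHE[m] <
      1 / (volume (Om m ε)).toReal * ∫ z in Om m ε, ff δ z.fst := by
  wlog hc0 : 0 ≤ c generalizing c
  · obtain ⟨ε, δ, h1, h2, h3, h4⟩ := this 0 (by positivity) le_rfl
    refine ⟨ε, δ, h1, h2, h3, lt_of_le_of_lt ?_ h4⟩
    rw [zero_div, zero_mul]
    refine mul_nonpos_of_nonpos_of_nonneg ?_ (integral_nonneg fun z => ff_nonneg _ _)
    exact div_nonpos_of_nonpos_of_nonneg (not_le.1 hc0).le ENNReal.toReal_nonneg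
  -- choose δ
  obtain ⟨δ, hδ0, hδ1, hδ⟩ : ∃ δ : ℝ, 0 < δ ∧ δ < 1 ∧ c < (m + 1) * (1 - δ) := by
    have h1 : 0 < (m + 1 - c) / (2 * (m + 1)) := by
      have : (0 : ℝ) < m + 1 := by positivity
      have : 0 < (m : ℝ) + 1 - c := by linarith
      positivity
    refine ⟨(m + 1 - c) / (2 * (m + 1)), h1, ?_, ?_⟩
    · rw [div_lt_one (by positivity)]
      have : (0 : ℝ) < m + 1 := by positivity
      linarith
    · have h2 : ((m : ℝ) + 1) * ((m + 1 - c) / (2 * (m + 1))) = (m + 1 - c) / 2 := by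
        field_simp
      rw [mul_sub, h2]
      linarith
  set D : ℝ := (volume (Do m)).toReal with hD
  set j : ℝ := (J m δ).toReal with hj
  have hD0 : 0 < D := ENNReal.toReal_pos volume_Do_pos.ne' volume_Do_ne_top
  have hj0 : 0 < j := ENNReal.toReal_pos (J_pos δ hδ0).ne' (J_ne_top δ hδ0)
  -- choose ε
  obtain ⟨ε, hε0, hε⟩ : ∃ ε : ℝ, 0 < ε ∧
      c * (2 * ((Kc m ε : ℝ) ^ m * j) + m * (2 * ε)) < 2 * (m + 1) * (1 - δ) * j := by
    have hcont : Continuous (fun ε : ℝ => c * (2 * ((Kc m ε : ℝ) ^ m * j) + m * (2 * ε))) := by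
      unfold Kc
      fun_prop
    have h0 : c * (2 * ((Kc m 0 : ℝ) ^ m * j) + m * (2 * 0)) < 2 * (m + 1) * (1 - δ) * j := by
      have : (Kc m 0 : ℝ) = 1 := by simp [Kc]
      rw [this, one_pow, one_mul, mul_zero, mul_zero, add_zero]
      have := mul_lt_mul_of_pos_right hδ hj0
      linarith
    have h1 : ∀ᶠ ε : ℝ in 𝓝 0, c * (2 * ((Kc m ε : ℝ) ^ m * j) + m * (2 * ε)) <
        2 * (m + 1) * (1 - δ) * j := hcont.continuousAt.eventually (gt_mem_nhds h0)
    obtain ⟨ε, h2, h3⟩ := ((h1.filter_mono nhdsWithin_le_nhds).and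
      (self_mem_nhdsWithin (s := Ioi (0 : ℝ)))).exists
    exact ⟨ε, h3, h2⟩
  refine ⟨ε, δ, hε0, hδ0, hδ1, ?_⟩
  -- the four quantities
  have hmeas : Measurable (fun z : H m => ff δ z.fst) :=
    (measurable_ff δ).comp continuous_fst.measurable
  have e1 : ∫ z in Om m ε, ff δ z.fst =
      (∫⁻ z in Om m ε, ENNReal.ofReal (ff δ z.fst)).toReal :=
    integral_eq_lintegral_of_nonneg_ae (Eventually.of_forall fun z => ff_nonneg _ _)
      hmeas.aestronglyMeasurable
  have e2 : ∫ z in frontier (Om m ε), ff δ z.fst ∂μHE[m] =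
      (∫⁻ z in frontier (Om m ε), ENNReal.ofReal (ff δ z.fst) ∂μHE[m]).toReal :=
    integral_eq_lintegral_of_nonneg_ae (Eventually.of_forall fun z => ff_nonneg _ _)
      hmeas.aestronglyMeasurable
  have hV : (volume (Om m ε)).toReal = 2 * ε * (D / (m + 1)) := by
    rw [volume_Om ε hε0, ENNReal.toReal_mul, ENNReal.toReal_ofReal (by positivity),
      ENNReal.toReal_div, ENNReal.toReal_add (ENNReal.natCast_ne_top m) ENNReal.one_ne_top]
    simp [hD]
  have hI : 2 * ε * (1 - δ) * j ≤ ∫ z in Om m ε, ff δ z.fst := by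
    rw [e1]
    have h1 := lintegral_Om (m := m) ε δ hε0 hδ0
    have h2 : ∫⁻ z in Om m ε, ENNReal.ofReal (ff δ z.fst) ≠ ⊤ := by
      refine (lt_of_le_of_lt (b := volume (Om m ε)) ?_ ?_).ne
      · calc ∫⁻ z in Om m ε, ENNReal.ofReal (ff δ z.fst) ≤ ∫⁻ _ in Om m ε, 1 := by
              refine setLIntegral_mono' (isOpen_Om ε).measurableSet fun z hz => ?_
              rw [← ENNReal.ofReal_one]
              exact ENNReal.ofReal_le_ofReal (ff_le_one δ hδ0 _
                (Finset.sum_nonneg fun j _ => (hz.1.1 j).le))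
          _ = _ := by simp
      · rw [volume_Om ε hε0]
        exact ENNReal.mul_lt_top ENNReal.ofReal_lt_top
          (ENNReal.div_lt_top volume_Do_ne_top (by simp))
    have h3 := ENNReal.toReal_mono h2 h1
    rwa [ENNReal.toReal_mul, ENNReal.toReal_ofReal (by nlinarith)] at h3
  have hS : 2 * D ≤ ((μHE[m] : Measure (H m)) (frontier (Om m ε))).toReal := by
    have h1 := ENNReal.toReal_mono (frontier_ne_top (m := m) ε hε0) (le_frontier ε hε0)
    rwa [ENNReal.toReal_mul, ENNReal.toReal_ofNat] at h1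
  have hB : ∫ z in frontier (Om m ε), ff δ z.fst ∂μHE[m] ≤
      2 * ((Kc m ε : ℝ) ^ m * j) + m * (2 * ε) := by
    rw [e2]
    have h1 := lintegral_frontier (m := m) ε δ hε0 hδ0 hδ1
    have h2 : 2 * ((Kc m ε : ℝ≥0∞) ^ m * J m δ) + m * ENNReal.ofReal (2 * ε) ≠ ⊤ := by
      refine ENNReal.add_ne_top.2 ⟨ENNReal.mul_ne_top (by simp) (ENNReal.mul_ne_top
        (ENNReal.pow_ne_top ENNReal.coe_ne_top) (J_ne_top δ hδ0)),
        ENNReal.mul_ne_top (by simp) ENNReal.ofReal_ne_top⟩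
    have h3 := ENNReal.toReal_mono h2 h1
    rw [ENNReal.toReal_add (ENNReal.mul_ne_top (by simp) (ENNReal.mul_ne_top
        (ENNReal.pow_ne_top ENNReal.coe_ne_top) (J_ne_top δ hδ0)))
        (ENNReal.mul_ne_top (by simp) ENNReal.ofReal_ne_top), ENNReal.toReal_mul,
      ENNReal.toReal_mul, ENNReal.toReal_mul, ENNReal.toReal_ofReal (by positivity),
      ENNReal.toReal_pow] at h3
    simpa using h3
  have hBnn : 0 ≤ ∫ z in frontier (Om m ε), ff δ z.fst ∂μHE[m] :=
    integral_nonneg fun z => ff_nonneg _ _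
  have hmpos : (0 : ℝ) < m + 1 := by positivity
  calc c / ((μHE[m] : Measure (H m)) (frontier (Om m ε))).toReal *
        ∫ z in frontier (Om m ε), ff δ z.fst ∂μHE[m]
      ≤ c / (2 * D) * (2 * ((Kc m ε : ℝ) ^ m * j) + m * (2 * ε)) := by
        gcongr
    _ = (c * (2 * ((Kc m ε : ℝ) ^ m * j) + m * (2 * ε))) / (2 * D) := by ring
    _ < (2 * (m + 1) * (1 - δ) * j) / (2 * D) := by gcongr
    _ = 1 / (2 * ε * (D / (m + 1))) * (2 * ε * (1 - δ) * j) := by
        field_simp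
    _ ≤ 1 / (volume (Om m ε)).toReal * ∫ z in Om m ε, ff δ z.fst := by
        rw [hV]
        gcongr

/-- **Lower bound `c_n ≥ n` for nonnegative convex functions.** Let `n ≥ 2` and `c < n`. There are
a convex domain `Ω ⊂ ℝⁿ` with `0 < |∂Ω| < ∞` and a continuous convex function `f : ℝⁿ → [0, ∞)`
for which the Hermite-Hadamard inequality with constant `c` fails. -/
theorem result (n : ℕ) (hn : 2 ≤ n) (c : ℝ) (hc : c < n) :
    ∃ (Ω : Set (EuclideanSpace ℝ (Fin n))) (f : EuclideanSpace ℝ (Fin n) → ℝ),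
      IsConvexDomain Ω ∧ 0 < μHE[n - 1] (frontier Ω) ∧ μHE[n - 1] (frontier Ω) < ⊤ ∧
      Continuous f ∧ ConvexOn ℝ univ f ∧ (∀ x, 0 ≤ f x) ∧ ¬ Holds c Ω f := by
  obtain ⟨m, rfl⟩ : ∃ m, n = m + 1 := ⟨n - 1, by omega⟩
  obtain ⟨ε, δ, hε, hδ0, hδ1, h⟩ := aux m c (by exact_mod_cast hc)
  have hfr : Module.finrank ℝ (Pool.Agent.H867R2.HH.H m) = m + 1 := by
    rw [(WithLp.linearEquiv 2 ℝ (EuclideanSpace ℝ (Fin m) × ℝ)).finrank_eq,
      Module.finrank_prod, finrank_euclideanSpace_fin, Module.finrank_self]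
  let e : EuclideanSpace ℝ (Fin (m + 1)) ≃ₗᵢ[ℝ] Pool.Agent.H867R2.HH.H m :=
    ((stdOrthonormalBasis ℝ (Pool.Agent.H867R2.HH.H m)).reindex (finCongr hfr)).repr.symm
  set Om' := Pool.Agent.H867R2.HH.Om m ε with hOm
  set ff' := Pool.Agent.H867R2.HH.ff (m := m) δ with hff
  have hvol : MeasurePreserving e volume volume := e.measurePreserving
  have hhaus : MeasurePreserving e μHE[m] μHE[m] :=
    e.toIsometryEquiv.measurePreserving_euclideanHausdorffMeasure m
  have hfront : frontier (e ⁻¹' Om') = e ⁻¹' (frontier Om') :=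
    (e.toHomeomorph.preimage_frontier Om').symm
  have hemb : MeasurableEmbedding e := e.toHomeomorph.measurableEmbedding
  have hlin : Continuous (fun z : Pool.Agent.H867R2.HH.H m => ff' z.fst) :=
    (Pool.Agent.H867R2.HH.continuous_ff δ).comp Pool.Agent.H867R2.HH.continuous_fst
  have hm1 : m + 1 - 1 = m := by omega
  have hmeasfr : μHE[m] (frontier (e ⁻¹' Om')) =
      (μHE[m] : Measure (Pool.Agent.H867R2.HH.H m)) (frontier Om') := by
    rw [hfront]
    exact hhaus.measure_preimage_emb hemb _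
  refine ⟨e ⁻¹' Om', fun x => ff' (e x).fst, ⟨?_, ?_, ?_, ?_⟩, ?_, ?_, ?_, ?_, ?_, ?_⟩
  · exact (Pool.Agent.H867R2.HH.isOpen_Om ε).preimage e.continuous
  · exact (Pool.Agent.H867R2.HH.convex_Om ε).linear_preimage e.toLinearEquiv.toLinearMap
  · -- bounded
    have h1 : ∀ z ∈ Om', ‖z‖ ≤ Real.sqrt (m + ε ^ 2) := by
      rintro z ⟨hz1, hz2⟩
      rw [WithLp.prod_norm_eq_of_L2]
      apply Real.sqrt_le_sqrt
      have hb := Pool.Agent.H867R2.HH.Do_subset_Bx hz1
      have h2 : ‖z.fst‖ ^ 2 ≤ m := by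
        rw [EuclideanSpace.norm_sq_eq]
        calc ∑ i, ‖z.fst i‖ ^ 2 ≤ ∑ _i : Fin m, (1 : ℝ) := by
              refine Finset.sum_le_sum fun i _ => ?_
              rw [Real.norm_eq_abs, sq_abs]
              nlinarith [hb i]
          _ = m := by simp
      have h3 : 0 ≤ Pool.Agent.H867R2.HH.S z.fst :=
        Finset.sum_nonneg fun j _ => (hz1.1 j).le
      have h4 : ‖z.snd‖ ≤ ε := by
        rw [Real.norm_eq_abs]
        nlinarith
      have h5 : ‖z.snd‖ ^ 2 ≤ ε ^ 2 := by gcongr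
      linarith
    refine (Metric.isBounded_closedBall (x := (0 : EuclideanSpace ℝ (Fin (m + 1))))
      (r := Real.sqrt (m + ε ^ 2))).subset fun x hx => ?_
    rw [mem_closedBall_zero_iff, ← e.norm_map]
    exact h1 _ hx
  · obtain ⟨z, hz⟩ := Pool.Agent.H867R2.HH.nonempty_Om (m := m) ε hε
    exact ⟨e.symm z, by simpa using hz⟩
  · rw [hm1, hmeasfr]
    refine lt_of_lt_of_le ?_ (Pool.Agent.H867R2.HH.le_frontier ε hε)
    exact ENNReal.mul_pos (by simp) Pool.Agent.H867R2.HH.volume_Do_pos.ne'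
  · rw [hm1, hmeasfr]
    exact lt_top_iff_ne_top.2 (Pool.Agent.H867R2.HH.frontier_ne_top ε hε)
  · exact hlin.comp e.continuous
  · -- convex
    have h1 : ConvexOn ℝ univ ff' := by
      refine ConvexOn.sup (convexOn_const 0 convex_univ) ?_
      refine ⟨convex_univ, fun x _ y _ a b ha hb hab => ?_⟩
      simp only [Pool.Agent.H867R2.HH.S_add, Pool.Agent.H867R2.HH.S_smul, smul_eq_mul]
      have : b = 1 - a := by linarith
      subst this
      apply le_of_eq
      ring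
    refine ⟨convex_univ, fun x _ y _ a b ha hb hab => ?_⟩
    have h2 := h1.2 (mem_univ (e x).fst) (mem_univ (e y).fst) ha hb hab
    have h3 : (e (a • x + b • y)).fst = a • (e x).fst + b • (e y).fst := by
      rw [map_add, map_smul, map_smul]
      rfl
    show ff' (e (a • x + b • y)).fst ≤ _
    rw [h3]
    exact h2
  · exact fun x => Pool.Agent.H867R2.HH.ff_nonneg _ _
  · unfold Holds
    rw [not_le, hm1, hmeasfr, hfront, hvol.measure_preimage_emb hemb]
    have h1 : ∫ x in e ⁻¹' Om', ff' (e x).fst = ∫ z in Om', ff' z.fst :=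
      hvol.setIntegral_preimage_emb hemb (fun z => ff' z.fst) Om'
    have h2 : ∫ x in e ⁻¹' frontier Om', ff' (e x).fst ∂μHE[m] =
        ∫ z in frontier Om', ff' z.fst ∂μHE[m] :=
      hhaus.setIntegral_preimage_emb hemb (fun z => ff' z.fst) _
    rw [h1, h2]
    exact h

end Pool.Agent.Results.MP_a32717_an.ConvexConstantAtLeastN
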